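import Pool.Agent.H85.LK.Targets

/-!
# NUM2: the numerical inequality for disconnected sets
-/

set_option autoImplicit false

namespace Pool.Agent.H35.LK

open Pool.Agent.H85.LK

lemma num2_x {L : ℝ} (hL : (4800 : ℝ) ^ 2 ≤ L) :
    0 ≤ L ^ (-(2 / 3) : ℝ) ∧ L ^ (-(2 / 3) : ℝ) ≤ 1 / 4800 := by
  have h0 : (0 : ℝ) < 4800 ^ 2 := by norm_num
  have hL1 : (1 : ℝ) ≤ L := le_trans (by norm_num) hL
  refine ⟨Real.rpow_nonneg (by linarith) _, ?_⟩
  have h1 : L ^ (-(2 / 3) : ℝ) ≤ L ^ (-(1 / 2) : ℝ) :=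
    Real.rpow_le_rpow_of_exponent_le hL1 (by norm_num)
  have h2 : L ^ (-(1 / 2) : ℝ) ≤ ((4800 : ℝ) ^ 2) ^ (-(1 / 2) : ℝ) :=
    Real.rpow_le_rpow_of_nonpos h0 hL (by norm_num)
  have h3 : ((4800 : ℝ) ^ 2) ^ (-(1 / 2) : ℝ) = 1 / 4800 := by
    rw [← Real.rpow_natCast_mul (by norm_num)]
    have : ((2 : ℕ) : ℝ) * (-(1 / 2)) = -1 := by norm_num
    rw [this, Real.rpow_neg_one]
    norm_num
  linarith

lemma num2_main {N x : ℝ} (hN : 1000 ≤ N) (hx0 : 0 ≤ x) (hx : x ≤ 1 / 4800) :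
    0 < 1 + 4 / N * (1 - 48 * x) ∧
    1 < ((1 + 4 / N * (1 - 48 * x)) / (1 + 4 * (N - 1) / (N - 2) ^ 2)) ^ (N / 2) +
      (1 / (1 + 4 * (N - 1) / (N - 2) ^ 2)) ^ (N / 2) := by
  have hN0 : 0 < N := by linarith
  set y := 4 / N * (1 - 48 * x) with hy
  set k := 4 * (N - 1) / (N - 2) ^ 2 with hk
  have h4N : 0 < 4 / N := by positivity
  have hy0 : 0 < y := by
    rw [hy]
    apply mul_pos h4N
    linarith
  have hy4 : y ≤ 4 / N := by
    rw [hy]
    nlinarith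
  have hk0 : 0 ≤ k := by
    rw [hk]
    apply div_nonneg (by linarith) (by positivity)
  have hk1 : 0 < 1 + k := by linarith
  have hkN : k * (N / 2) ≤ 2.01 := by
    rw [hk, div_mul_eq_mul_div, div_le_iff₀ (by nlinarith)]
    nlinarith
  have hlog1 : 1 + k ≤ Real.exp k := by
    have := Real.add_one_le_exp k
    linarith
  have hlog2 : Real.exp (y - y ^ 2) ≤ 1 + y := by
    have h1 : 1 - y / (1 + y) ≤ Real.exp (-(y / (1 + y))) := by
      have := Real.add_one_le_exp (-(y / (1 + y)))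
      linarith
    have h2 : 1 - y / (1 + y) = (1 + y)⁻¹ := by
      field_simp
      ring
    rw [h2, Real.exp_neg] at h1
    have h3 : Real.exp (y / (1 + y)) ≤ 1 + y := by
      have h4 := inv_anti₀ (inv_pos.2 (by linarith : 0 < 1 + y)) h1
      simpa using h4
    refine le_trans (Real.exp_le_exp.2 ?_) h3
    rw [le_div_iff₀ (by linarith)]
    nlinarith [pow_pos hy0 3]
  have hyN : (y ^ 2) * (N / 2) ≤ 8 / N := by
    have h1 : y ^ 2 ≤ (4 / N) ^ 2 := by gcongr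
    have h2 : (4 / N) ^ 2 * (N / 2) = 8 / N := by
      field_simp
      ring
    rw [← h2]
    gcongr
  have hyN2 : y * (N / 2) = 2 * (1 - 48 * x) := by
    rw [hy]
    field_simp
    ring
  have h8N : 8 / N ≤ 0.008 := by
    rw [div_le_iff₀ hN0]
    linarith
  refine ⟨by linarith, ?_⟩
  have hA : (0.96 : ℝ) ≤ ((1 + y) / (1 + k)) ^ (N / 2) := by
    have h1 : Real.exp (y - y ^ 2 - k) ≤ (1 + y) / (1 + k) := by
      rw [Real.exp_sub, le_div_iff₀ hk1]
      calc Real.exp (y - y ^ 2) / Real.exp k * (1 + k)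
          ≤ Real.exp (y - y ^ 2) / Real.exp k * Real.exp k := by gcongr
        _ = Real.exp (y - y ^ 2) := by
            field_simp
        _ ≤ 1 + y := hlog2
    have h2 : (Real.exp (y - y ^ 2 - k)) ^ (N / 2) ≤ ((1 + y) / (1 + k)) ^ (N / 2) :=
      Real.rpow_le_rpow (Real.exp_pos _).le h1 (by linarith)
    rw [← Real.exp_mul] at h2
    refine le_trans ?_ h2
    have h3 := Real.add_one_le_exp ((y - y ^ 2 - k) * (N / 2))
    refine le_trans ?_ h3
    have h4 : (y - y ^ 2 - k) * (N / 2) = y * (N / 2) - y ^ 2 * (N / 2) - k * (N / 2) := by ring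
    rw [h4, hyN2]
    linarith
  have hB : (0.1 : ℝ) ≤ (1 / (1 + k)) ^ (N / 2) := by
    have h1 : Real.exp (-k) ≤ 1 / (1 + k) := by
      rw [Real.exp_neg, one_div]
      exact inv_anti₀ hk1 hlog1
    have h2 : (Real.exp (-k)) ^ (N / 2) ≤ (1 / (1 + k)) ^ (N / 2) :=
      Real.rpow_le_rpow (Real.exp_pos _).le h1 (by linarith)
    rw [← Real.exp_mul] at h2
    refine le_trans ?_ h2
    have h3 : Real.exp (-2.01) ≤ Real.exp (-k * (N / 2)) := by
      apply Real.exp_le_exp.2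
      linarith
    refine le_trans ?_ h3
    have h4 : Real.exp (-2.01) = Real.exp (-1) * Real.exp (-1) * Real.exp (-0.01) := by
      rw [← Real.exp_add, ← Real.exp_add]
      norm_num
    have h5 := Real.exp_neg_one_gt_d9
    have h6 : (0.99 : ℝ) ≤ Real.exp (-0.01) := by
      have := Real.add_one_le_exp (-0.01 : ℝ)
      norm_num at this ⊢
      linarith
    rw [h4]
    have h7 : (0.36 : ℝ) ≤ Real.exp (-1) := by
      norm_num at h5 ⊢
      linarith
    have h8 : (0.36 : ℝ) * 0.36 ≤ Real.exp (-1) * Real.exp (-1) := by gcongr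
    have h9 : (0.36 : ℝ) * 0.36 * 0.99 ≤ Real.exp (-1) * Real.exp (-1) * Real.exp (-0.01) := by
      gcongr
    norm_num at h9 ⊢
    linarith
  have h10 : (1 : ℝ) < 0.96 + 0.1 := by norm_num
  linarith

theorem pf_NUM2 : T_NUM2 := by
  refine ⟨1000 + ⌈Real.exp (4800 ^ 2)⌉₊, ?_⟩
  intro N m hN hm
  have hN' : (1000 : ℝ) ≤ N := by exact_mod_cast (by omega : 1000 ≤ N)
  have hm1 : Real.exp (4800 ^ 2) ≤ m := by
    have h0 : ⌈Real.exp (4800 ^ 2)⌉₊ ≤ m := by omega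
    exact (Nat.le_ceil _).trans (Nat.cast_le.2 h0)
  have hL : (4800 : ℝ) ^ 2 ≤ Real.log m := by
    rw [Real.le_log_iff_exp_le (lt_of_lt_of_le (Real.exp_pos _) hm1)]
    exact hm1
  obtain ⟨h1, h2⟩ := num2_x hL
  exact num2_main hN' h1 h2

end Pool.Agent.H35.LK
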